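import Pool.Agent.U922.WO.Clos

/-!
# The growth rates of the finite schemes of degree `D` are well-ordered
-/

set_option autoImplicit false
set_option linter.unusedSectionVars false

namespace Pool.Agent.U922.WO

open scoped TensorProduct
open Pool.Agent.H826R3.SM Pool.Agent.TH671.DU Pool.Agent.N86.SQ
open MvPolynomial

/-- the growth rates of the disjoint unions of local schemes of degrees `d i` -/
def typeRates (k : Type) [Field k] (s : ℕ) (d : Fin s → ℕ) : Set ℝ :=
  {x | ∃ (A : Fin s → Type) (_ : ∀ i, CommRing (A i)) (_ : ∀ i, Algebra k (A i)),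
    (∀ i, Module.Finite k (A i)) ∧ (∀ i, IsLocalRing (A i)) ∧
    (∀ i, Module.finrank k (A i) = d i) ∧ rate k (∀ i, A i) = x}

/-- the growth rates of the non-empty finite schemes of degree `D` -/
def allRates (k : Type) [Field k] (D : ℕ) : Set ℝ :=
  {x | ∃ (A : Type) (_ : CommRing A) (_ : Algebra k A), Module.Finite k A ∧ Nontrivial A ∧
    Module.finrank k A = D ∧ rate k A = x}

variable {k : Type} [Field k] [IsAlgClosed k]

theorem typeRates_isWF {s : ℕ} (hs : 0 < s) (d : Fin s → ℕ) : (typeRates k s d).IsWF := by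
  rw [Set.isWF_iff_no_descending_seq]
  intro f hf hmem
  choose A cA aA fA lA hd hr using hmem
  letI : ∀ n i, CommRing (A n i) := cA
  letI : ∀ n i, Algebra k (A n i) := aA
  have : ∀ n i, Module.Finite k (A n i) := fA
  have : ∀ n i, IsLocalRing (A n i) := lA
  let b : ∀ n i, Module.Basis (Fin (d i)) k (A n i) := fun n i =>
    Module.finBasisOfFinrankEq k (A n i) (hd n i)
  -- the ideals of the tails
  let I : ℕ → Ideal (MvPolynomial (Σ i, PIdx (d i)) k) := fun i =>
    ⨅ j : {j : ℕ // i ≤ j}, RingHom.ker (eval (jpar (b j)))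
  have hI : ∀ i Q, Q ∈ I i ↔ ∀ j, i ≤ j → eval (jpar (b j)) Q = 0 := by
    intro i Q
    change Q ∈ (⨅ j : {j : ℕ // i ≤ j}, RingHom.ker (eval (jpar (b j)))) ↔ _
    rw [Ideal.mem_iInf]
    constructor
    · intro h j hj
      exact h ⟨j, hj⟩
    · rintro h ⟨j, hj⟩
      exact h j hj
  have hmono : Monotone I := by
    intro i i' hii Q hQ
    rw [hI] at hQ ⊢
    exact fun j hj => hQ j (hii.trans hj)
  obtain ⟨n, hn⟩ := monotone_stabilizes_iff_noetherian.2
    (inferInstance : IsNoetherian (MvPolynomial (Σ i, PIdx (d i)) k)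
      (MvPolynomial (Σ i, PIdx (d i)) k)) ⟨I, hmono⟩
  have h1 := hn (n + 1) (Nat.le_succ n)
  have h2 : rate k (∀ i, A n i) ≤ f (n + 1) := by
    refine closure_union hs A b n (fun i => inferInstance) (fun y i => inferInstance)
      (fun j : ℕ => n + 1 + j) (fun Q hQ => ?_) fun j => ?_
    · have h3 : Q ∈ I (n + 1) := by
        rw [hI]
        intro j hj
        obtain ⟨i, rfl⟩ := Nat.exists_eq_add_of_le hj
        exact hQ i
      have h4 : Q ∈ I n := by
        have h5 : I n = I (n + 1) := h1
        rw [h5]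
        exact h3
      exact (hI n Q).1 h4 n le_rfl
    · have h6 := hr (n + 1 + j)
      change rate k (∀ i, A (n + 1 + j) i) ≤ _
      rw [h6]
      exact hf.antitone (Nat.le_add_right _ _)
  have h7 := hr n
  rw [h7] at h2
  exact absurd (hf (Nat.lt_succ_self n)) (not_lt.2 h2)

/-- a finite algebra is a product of local algebras -/
theorem exists_dec (A : Type) [CommRing A] [Algebra k A] [Module.Finite k A] [Nontrivial A] :
    ∃ (s : ℕ) (_ : 0 < s) (B : Fin s → Type) (_ : ∀ i, CommRing (B i)) (_ : ∀ i, Algebra k (B i))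
      (_ : ∀ i, Module.Finite k (B i)) (_ : ∀ i, IsLocalRing (B i)),
      Nonempty (A ≃ₐ[k] ∀ i, B i) := by
  classical
  have hart : IsArtinianRing A := IsArtinianRing.of_finite k A
  have hfin : Finite (PrimeSpectrum A) := inferInstance
  have : Fintype (PrimeSpectrum A) := Fintype.ofFinite _
  let e0 := PrimeSpectrum.toPiLocalizationEquiv (R := A)
  let e : A ≃ₐ[k] (∀ p : PrimeSpectrum A, Localization.AtPrime p.asIdeal) :=
    AlgEquiv.restrictScalars k e0
  have hf : ∀ p : PrimeSpectrum A, Module.Finite k (Localization.AtPrime p.asIdeal) := by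
    intro p
    have h1 : Module.Finite k (∀ p : PrimeSpectrum A, Localization.AtPrime p.asIdeal) :=
      Module.Finite.equiv e.toLinearEquiv
    exact Module.Finite.of_surjective
      (LinearMap.proj (R := k) (φ := fun p : PrimeSpectrum A => Localization.AtPrime p.asIdeal) p)
      (Function.surjective_eval p)
  let σ := Fintype.equivFin (PrimeSpectrum A)
  refine ⟨Fintype.card (PrimeSpectrum A), Fintype.card_pos, fun i =>
    Localization.AtPrime (σ.symm i).asIdeal, fun i => inferInstance, fun i => inferInstance,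
    fun i => hf _, fun i => inferInstance, ?_⟩
  let φ : (∀ p : PrimeSpectrum A, Localization.AtPrime p.asIdeal) →ₐ[k]
      (∀ i, Localization.AtPrime (σ.symm i).asIdeal) :=
    AlgHom.pi fun i =>
      Pi.evalAlgHom k (fun p : PrimeSpectrum A => Localization.AtPrime p.asIdeal) (σ.symm i)
  have hφ : Function.Bijective φ := (Equiv.piCongrLeft' _ σ).bijective
  exact ⟨e.trans (AlgEquiv.ofBijective φ hφ)⟩

theorem allRates_isWF (D : ℕ) : (allRates k D).IsWF := by
  classical
  let V : Type := Σ s : Fin (D + 1), (Fin s → Fin (D + 1))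
  have hsub : allRates k D ⊆ ⋃ v ∈ (Finset.univ : Finset V),
      (if 0 < (v.1 : ℕ) then typeRates k v.1 (fun i => (v.2 i : ℕ)) else ∅) := by
    rintro x ⟨A, _, _, _, _, hD, rfl⟩
    obtain ⟨s, hs, B, _, _, _, _, ⟨e⟩⟩ := exists_dec (k := k) A
    have h1 : ∑ i, Module.finrank k (B i) = D := by
      rw [← hD, e.toLinearEquiv.finrank_eq, Module.finrank_pi_fintype]
    have h2 : ∀ i, Module.finrank k (B i) ≤ D := by
      intro i
      rw [← h1]
      exact Finset.single_le_sum (f := fun i => Module.finrank k (B i))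
        (fun j _ => Nat.zero_le _) (Finset.mem_univ i)
    have h3 : s ≤ D := by
      have h4 : ∑ i : Fin s, 1 ≤ ∑ i, Module.finrank k (B i) :=
        Finset.sum_le_sum fun i _ => Module.finrank_pos
      rw [h1] at h4
      simpa using h4
    rw [Set.mem_iUnion₂]
    refine ⟨⟨⟨s, by omega⟩, fun i => ⟨Module.finrank k (B i), Nat.lt_succ_of_le (h2 i)⟩⟩,
      Finset.mem_univ _, ?_⟩
    rw [if_pos hs]
    have hnt : Nontrivial (∀ i, B i) := Pi.nontrivial_at ⟨0, hs⟩
    exact ⟨B, inferInstance, inferInstance, inferInstance, inferInstance, fun i => rfl,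
      (N86.SQ.rate_congr e).symm⟩
  refine Set.IsWF.mono ?_ hsub
  rw [Finset.isWF_bUnion]
  intro v _
  by_cases h : 0 < (v.1 : ℕ)
  · rw [if_pos h]
    exact typeRates_isWF h _
  · rw [if_neg h]
    exact Set.isWF_empty

/-- **Gap above the degree, finite certificates for Q1.** -/
theorem gap_all (d : ℕ) : ∃ ε : ℝ, 0 < ε ∧ ∀ (A : Type) [CommRing A] [Algebra k A]
    [Module.Finite k A] [Nontrivial A], Module.finrank k A = d →
      (QOne k A ↔ ∃ n : ℕ, 1 ≤ n ∧
        (d : ℝ) ^ n + defect k (Pow k A n) < ((d : ℝ) + ε) ^ n) := by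
  obtain ⟨ε, hε, hgap⟩ : ∃ ε : ℝ, 0 < ε ∧ ∀ x ∈ allRates k d, x < d + ε → x ≤ d := by
    have hwf : ({x ∈ allRates k d | (d : ℝ) < x}).IsWF :=
      (allRates_isWF (k := k) d).mono (Set.sep_subset _ _)
    by_cases hne : ({x ∈ allRates k d | (d : ℝ) < x}).Nonempty
    · refine ⟨hwf.min hne - d, ?_, fun x hx hxd => ?_⟩
      · have := (hwf.min_mem hne).2
        linarith
      · by_contra hcon
        push Not at hcon
        have h1 := hwf.min_le hne (a := x) ⟨hx, hcon⟩
        linarith
    · refine ⟨1, one_pos, fun x hx _ => ?_⟩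
      by_contra hcon
      push Not at hcon
      exact hne ⟨x, hx, hcon⟩
  refine ⟨ε, hε, fun A _ _ _ _ hd => ?_⟩
  have hr := one_le_rate (k := k) A
  constructor
  · intro h
    rw [qOne_iff_rate, hd] at h
    have h1 : rate k A < d + ε := by linarith
    rw [rate_eq A] at h1
    obtain ⟨N, hN⟩ := exists_lt_of_ciInf_lt h1
    refine ⟨N + 1, by omega, ?_⟩
    have h2 : ((mdeg k (Pow k A (N + 1)) : ℕ) : ℝ) < ((d : ℝ) + ε) ^ (N + 1) := by
      have h3 := pow_lt_pow_left₀ hN (by positivity) (Nat.succ_ne_zero N)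
      refine lt_of_le_of_lt (le_of_eq ?_) h3
      rw [← Real.rpow_natCast, ← Real.rpow_mul (Nat.cast_nonneg _)]
      push_cast
      rw [one_div, inv_mul_cancel₀ (by positivity), Real.rpow_one]
    rw [← fadd k (Pow k A (N + 1)), finrank_Pow', hd] at h2
    push_cast at h2
    exact h2
  · rintro ⟨n, hn, h⟩
    have h1 : rate k A ^ n ≤ (d : ℝ) ^ n + defect k (Pow k A n) := by
      refine (rate_pow_le A n).trans (le_of_eq ?_)
      rw [← fadd k (Pow k A n), finrank_Pow', hd]
      push_cast
      rfl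
    have h2 : rate k A < d + ε := lt_of_pow_lt_pow_left₀ n (by positivity) (h1.trans_lt h)
    have h3 := hgap (rate k A) ⟨A, inferInstance, inferInstance, inferInstance, inferInstance, hd,
      rfl⟩ h2
    rw [qOne_iff_rate, hd]
    refine le_antisymm h3 ?_
    have := finrank_le_rate (k := k) A
    rwa [hd] at this

end Pool.Agent.U922.WO
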