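import Pool.Agent.U922.WO.Words

/-!
# Closure theorem for disjoint unions of local schemes
-/

set_option autoImplicit false
set_option linter.unusedSectionVars false

namespace Pool.Agent.U922.WO

open scoped TensorProduct
open Pool.Agent.H826R3.SM Pool.Agent.TH671.DU Pool.Agent.N86.SQ
open MvPolynomial

variable {k : Type} [Field k]

section par

variable {s : ℕ} {d : Fin s → ℕ}

/-- joint parameters of a tuple of algebras with bases -/
noncomputable def jpar {A : Fin s → Type} [∀ i, CommRing (A i)] [∀ i, Algebra k (A i)]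
    (b : ∀ i, Module.Basis (Fin (d i)) k (A i)) : (Σ i, PIdx (d i)) → k :=
  fun q => par (b q.1) q.2

/-- the structure constants of a mixed power are polynomials in the joint parameters -/
theorem exists_mix_par (t : Fin s → ℕ) : ∃ (D : ℕ) (G : PIdx D → MvPolynomial (Σ i, PIdx (d i)) k),
    ∀ (A : Fin s → Type) [∀ i, CommRing (A i)] [∀ i, Algebra k (A i)]
      (b : ∀ i, Module.Basis (Fin (d i)) k (A i)),
      ∃ c : Module.Basis (Fin D) k (Mix k A t), ∀ v, par c v = eval (jpar b) (G v) := by
  classical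
  let P : Type := Σ i, Fin (t i)
  let I : Type := ∀ p : P, Fin (d p.1)
  let e : I ≃ Fin (Fintype.card I) := Fintype.equivFin I
  refine ⟨Fintype.card I, Sum.elim
    (fun z => ∏ p : P, X ⟨p.1, Sum.inl (e.symm z.1 p, e.symm z.2.1 p, e.symm z.2.2 p)⟩)
    (fun i => ∏ p : P, X ⟨p.1, Sum.inr (e.symm i p)⟩), fun A _ _ b => ?_⟩
  let c0 : Module.Basis I k (Mix k A t) := Basis.piTensorProduct fun p : P => b p.1
  refine ⟨c0.reindex e, ?_⟩
  rintro (z | i)
  · change (c0.reindex e).repr ((c0.reindex e) z.1 * (c0.reindex e) z.2.1) z.2.2 = _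
    rw [Module.Basis.repr_reindex, Finsupp.mapDomain_equiv_apply, Module.Basis.reindex_apply,
      Module.Basis.reindex_apply]
    change (Basis.piTensorProduct fun p : P => b p.1).repr
      ((Basis.piTensorProduct fun p : P => b p.1) (e.symm z.1) *
      (Basis.piTensorProduct fun p : P => b p.1) (e.symm z.2.1)) (e.symm z.2.2) = _
    rw [Basis.piTensorProduct_apply, Basis.piTensorProduct_apply,
      PiTensorProduct.tprod_mul_tprod, Basis.piTensorProduct_repr_tprod_apply, Sum.elim_inl,
      map_prod]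
    refine Finset.prod_congr rfl fun p _ => ?_
    rw [eval_X]
    rfl
  · change (c0.reindex e).repr 1 i = _
    rw [Module.Basis.repr_reindex, Finsupp.mapDomain_equiv_apply]
    change (Basis.piTensorProduct fun p : P => b p.1).repr 1 (e.symm i) = _
    rw [PiTensorProduct.one_def, Basis.piTensorProduct_repr_tprod_apply, Sum.elim_inr, map_prod]
    refine Finset.prod_congr rfl fun p _ => ?_
    rw [eval_X]
    rfl

end par

theorem sum_types {s N : ℕ} (x : ℝ) :
    ∑ f : Fin N → Fin s, x / (Fintype.card {g : Fin N → Fin s // ty g = ty f} : ℝ) =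
      ((Finset.univ.image (fun f : Fin N → Fin s => ty f)).card : ℝ) * x := by
  classical
  rw [← Finset.sum_fiberwise_of_maps_to (s := Finset.univ)
    (t := Finset.univ.image (fun f : Fin N → Fin s => ty f)) (g := fun f => ty f)
    fun f _ => Finset.mem_image_of_mem _ (Finset.mem_univ f)]
  rw [← nsmul_eq_mul, ← Finset.sum_const]
  refine Finset.sum_congr rfl fun t ht => ?_
  obtain ⟨f₀, -, hf₀⟩ := Finset.mem_image.1 ht
  have h1 : ∀ f ∈ Finset.univ.filter (fun f : Fin N → Fin s => ty f = t),
      x / (Fintype.card {g : Fin N → Fin s // ty g = ty f} : ℝ) =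
        x / ((Finset.univ.filter (fun f : Fin N → Fin s => ty f = t)).card : ℝ) := by
    intro f hf
    rw [Finset.mem_filter] at hf
    rw [Fintype.card_subtype, hf.2]
  rw [Finset.sum_congr rfl h1, Finset.sum_const, nsmul_eq_mul]
  have h2 : ((Finset.univ.filter (fun f : Fin N → Fin s => ty f = t)).card : ℝ) ≠ 0 := by
    have : 0 < (Finset.univ.filter (fun f : Fin N → Fin s => ty f = t)).card :=
      Finset.card_pos.2 ⟨f₀, by rw [Finset.mem_filter]; exact ⟨Finset.mem_univ _, hf₀⟩⟩
    exact_mod_cast this.ne'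
  field_simp

theorem card_types (s N : ℕ) :
    (Finset.univ.image (fun f : Fin N → Fin s => ty f)).card ≤ (N + 1) ^ s := by
  classical
  have h1 : ∀ f : Fin N → Fin s, ∀ i, ty f i < N + 1 := by
    intro f i
    have := Fintype.card_subtype_le (fun l : Fin N => f l = i)
    rw [Fintype.card_fin] at this
    exact Nat.lt_succ_of_le this
  have h2 : Finset.univ.image (fun f : Fin N → Fin s => ty f) ⊆
      Finset.univ.image (fun v : Fin s → Fin (N + 1) => fun i => (v i : ℕ)) := by
    intro t ht
    obtain ⟨f, -, rfl⟩ := Finset.mem_image.1 ht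
    exact Finset.mem_image.2 ⟨fun i => ⟨ty f i, h1 f i⟩, Finset.mem_univ _, rfl⟩
  refine (Finset.card_le_card h2).trans (Finset.card_image_le.trans (le_of_eq ?_))
  rw [Finset.card_univ, Fintype.card_fun, Fintype.card_fin, Fintype.card_fin]

variable [IsAlgClosed k]

/-- **The growth rate of a disjoint union of local schemes at a point of the closure.** -/
theorem closure_union {s : ℕ} (hs : 0 < s) {d : Fin s → ℕ} {Y : Type} (A : Y → Fin s → Type)
    [∀ y i, CommRing (A y i)] [∀ y i, Algebra k (A y i)]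
    (b : ∀ y i, Module.Basis (Fin (d i)) k (A y i)) (y₀ : Y)
    (hloc : ∀ i, IsLocalRing (A y₀ i)) (hnt : ∀ y i, Nontrivial (A y i)) {ZI : Type} (z : ZI → Y)
    (hcl : ∀ Q : MvPolynomial (Σ i, PIdx (d i)) k, (∀ j, eval (jpar (b (z j))) Q = 0) →
      eval (jpar (b y₀)) Q = 0)
    {x : ℝ} (hx : ∀ j, rate k (∀ i, A (z j) i) ≤ x) : rate k (∀ i, A y₀ i) ≤ x := by
  classical
  have hfin : ∀ y i, Module.Finite k (A y i) := fun y i => Module.Finite.of_basis (b y i)
  have hntE : ∀ y, Nontrivial (∀ i, A y i) := fun y => Pi.nontrivial_at ⟨0, hs⟩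
  -- the closure is not empty
  have hne : ∃ i : ZI, True := by
    by_contra hcon
    push Not at hcon
    have := hcl 1 fun i => (hcon i).elim
    rw [map_one] at this
    exact one_ne_zero this
  obtain ⟨i₁, -⟩ := hne
  have hx1 : 1 ≤ x := (one_le_rate (k := k) (∀ i, A (z i₁) i)).trans (hx i₁)
  have hr := one_le_rate (k := k) (∀ i, A y₀ i)
  -- the mixed powers
  have hmix : ∀ (N : ℕ) (f : Fin N → Fin s), rate k (Mix k (A y₀) (ty f)) ≤
      x ^ N / (Fintype.card {g : Fin N → Fin s // ty g = ty f} : ℝ) := by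
    intro N f
    obtain ⟨D, G, hG⟩ := exists_mix_par (k := k) (d := d) (ty f)
    choose c hc using fun y => hG (A y) (b y)
    have hl : IsLocalRing (Mix k (A y₀) (ty f)) :=
      isLocal_piT (k := k) fun p : (Σ i, Fin (ty f i)) => A y₀ p.1
    refine closure_rate (E := fun y => Mix k (A y) (ty f)) c y₀ z (fun Q hQ => ?_) fun j => ?_
    · have h1 : ∀ y, eval (par (c y)) Q = eval (jpar (b y)) (bind₁ G Q) := by
        intro y
        rw [← MvPolynomial.aeval_eq_eval, ← MvPolynomial.aeval_eq_eval, aeval_bind₁]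
        congr 2
        funext v
        rw [MvPolynomial.aeval_eq_eval]
        exact hc y v
      rw [h1]
      refine hcl _ fun j => ?_
      rw [← h1]
      exact hQ j
    · have h2 := rate_lower_words (k := k) (A (z j)) hs f
      have h3 : (0 : ℝ) < (Fintype.card {g : Fin N → Fin s // ty g = ty f} : ℝ) := by
        have : Nonempty {g : Fin N → Fin s // ty g = ty f} := ⟨⟨f, rfl⟩⟩
        exact_mod_cast Fintype.card_pos
      rw [le_div_iff₀ h3, mul_comm]
      refine h2.trans (pow_le_pow_left₀ ?_ (hx j) _)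
      linarith [one_le_rate (k := k) (∀ i, A (z j) i)]
  refine limit_lemma _ _ (by linarith) (by linarith) 1 0 s fun n => ?_
  have h4 := (rate_upper_words (k := k) (A y₀) hs (n + 1)).trans
    (Finset.sum_le_sum fun f _ => hmix (n + 1) f)
  rw [sum_types] at h4
  refine h4.trans ?_
  have h5 : ((Finset.univ.image (fun f : Fin (n + 1) → Fin s => ty f)).card : ℝ) ≤
      ((n + 1 + 1 : ℕ) : ℝ) ^ s := by exact_mod_cast card_types s (n + 1)
  have hxn : 0 ≤ x ^ (n + 1) := by positivity
  rw [mul_comm]
  refine mul_le_mul_of_nonneg_left (h5.trans ?_) hxn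
  push_cast
  have h6 : (0 : ℝ) ≤ ((n : ℝ) + 1 + 1) ^ s := by positivity
  have h7 : (1 : ℝ) ≤ (n : ℝ) + 1 + 2 := by
    have : (0 : ℝ) ≤ (n : ℝ) := Nat.cast_nonneg _
    linarith
  rw [mul_zero, mul_zero, zero_add, one_mul, one_mul]
  exact le_mul_of_one_le_right h6 h7

end Pool.Agent.U922.WO
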