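import Mathlib

/-!
# Tensor products of finitely many algebras

Generation, dimension and locality of `⨂ B p`, where the algebras `B p` may be different.
-/

set_option autoImplicit false
set_option linter.unusedSectionVars false

namespace Pool.Agent.U922.WO

open scoped TensorProduct

variable {k : Type} [Field k] {P : Type} [Fintype P] [DecidableEq P] (B : P → Type)
  [∀ p, CommRing (B p)] [∀ p, Algebra k (B p)]

/-- the inclusion of a factor -/
noncomputable abbrev sgl (p : P) : B p →ₐ[k] PiTensorProduct k B :=
  PiTensorProduct.singleAlgHom (R := k) (A := B) p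

theorem tprod_eq (x : ∀ p, B p) :
    (PiTensorProduct.tprod k x : PiTensorProduct k B) = ∏ p, sgl (k := k) B p (x p) := by
  conv_lhs => rw [← Finset.univ_prod_mulSingle x]
  rw [PiTensorProduct.tprod_prod]
  rfl

theorem pi_eq_top (S : Subalgebra k (PiTensorProduct k B)) (h : ∀ p x, sgl (k := k) B p x ∈ S) :
    S = ⊤ := by
  rw [eq_top_iff]
  rintro y -
  induction y using PiTensorProduct.induction_on with
  | smul_tprod r x =>
    refine Subalgebra.smul_mem _ ?_ r
    rw [tprod_eq]
    exact Subalgebra.prod_mem _ fun i _ => h i (x i)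
  | add x y hx hy => exact Subalgebra.add_mem _ hx hy

variable {κ : P → Type} [∀ p, Fintype (κ p)] [∀ p, DecidableEq (κ p)]

theorem finrank_piT [∀ p, Module.Finite k (B p)] :
    Module.finrank k (PiTensorProduct k B) = ∏ p, Module.finrank k (B p) := by
  classical
  rw [Module.finrank_eq_card_basis (Basis.piTensorProduct fun p => Module.finBasis k (B p)),
    Fintype.card_pi]
  simp

theorem finite_piT [∀ p, Module.Finite k (B p)] : Module.Finite k (PiTensorProduct k B) := by
  classical
  exact Module.Finite.of_basis (Basis.piTensorProduct fun p => Module.finBasis k (B p))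

/-- every element of a local algebra is the sum of a scalar and a nilpotent element -/
theorem exists_scalar [IsAlgClosed k] (R : Type) [CommRing R] [Algebra k R] [Module.Finite k R]
    [IsLocalRing R] (x : R) : ∃ c : k, IsNilpotent (x - algebraMap k R c) := by
  have hart : IsArtinianRing R := IsArtinianRing.of_finite k R
  let M : Ideal R := IsLocalRing.maximalIdeal R
  have hMmax : M.IsMaximal := IsLocalRing.maximalIdeal.isMaximal R
  let _ : Field (R ⧸ M) := Ideal.Quotient.field M
  have hbij : Function.Bijective (algebraMap k (R ⧸ M)) :=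
    IsAlgClosed.algebraMap_bijective_of_isIntegral
  obtain ⟨c, hc⟩ := hbij.2 (Ideal.Quotient.mk M x)
  refine ⟨c, ?_⟩
  have h1 : x - algebraMap k R c ∈ M := by
    rw [← Ideal.Quotient.eq_zero_iff_mem, map_sub, sub_eq_zero, ← hc]
    rfl
  have h2 : IsNilpotent M := by
    have h := IsArtinianRing.isNilpotent_jacobson_bot (R := R)
    rwa [IsLocalRing.jacobson_eq_maximalIdeal ⊥ bot_ne_top] at h
  obtain ⟨n, hn⟩ := h2
  exact ⟨n, by
    have h3 : (x - algebraMap k R c) ^ n ∈ M ^ n := Ideal.pow_mem_pow h1 n
    rw [hn] at h3
    exact h3⟩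

/-- an algebra all of whose elements are sums of scalars and nilpotent elements is local -/
theorem isLocal_of_scalar (R : Type) [CommRing R] [Algebra k R] [Nontrivial R]
    (h : ∀ x : R, ∃ c : k, IsNilpotent (x - algebraMap k R c)) : IsLocalRing R := by
  refine IsLocalRing.of_isUnit_or_isUnit_one_sub_self fun x => ?_
  obtain ⟨c, hc⟩ := h x
  have hx : x = algebraMap k R c + (x - algebraMap k R c) := by ring
  by_cases h0 : c = 0
  · right
    subst h0
    rw [map_zero, sub_zero] at hc
    exact hc.isUnit_one_sub
  · left
    rw [hx]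
    exact hc.isUnit_add_left_of_commute ((IsUnit.mk0 c h0).map (algebraMap k R))
      (Commute.all _ _)

/-- the subalgebra of the sums of scalars and nilpotent elements -/
def scalarNil (k : Type) [Field k] (R : Type) [CommRing R] [Algebra k R] : Subalgebra k R where
  carrier := {x | ∃ c : k, IsNilpotent (x - algebraMap k R c)}
  mul_mem' := by
    rintro a b ⟨c, hc⟩ ⟨e, he⟩
    refine ⟨c * e, ?_⟩
    have : a * b - algebraMap k R (c * e) = a * (b - algebraMap k R e) +
        algebraMap k R e * (a - algebraMap k R c) := by
      rw [map_mul]; ring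
    rw [this]
    exact Commute.isNilpotent_add (Commute.all _ _)
      (Commute.isNilpotent_mul_left (Commute.all _ _) he)
      (Commute.isNilpotent_mul_left (Commute.all _ _) hc)
  add_mem' := by
    rintro a b ⟨c, hc⟩ ⟨e, he⟩
    refine ⟨c + e, ?_⟩
    have : a + b - algebraMap k R (c + e) = (a - algebraMap k R c) + (b - algebraMap k R e) := by
      rw [map_add]; ring
    rw [this]
    exact Commute.isNilpotent_add (Commute.all _ _) hc he
  algebraMap_mem' r := ⟨r, by rw [sub_self]; exact IsNilpotent.zero⟩

/-- tensor products of local algebras are local -/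
theorem isLocal_piT [IsAlgClosed k] [∀ p, Module.Finite k (B p)] [∀ p, IsLocalRing (B p)] :
    IsLocalRing (PiTensorProduct k B) := by
  have hfin := finite_piT (k := k) B
  have hnt : Nontrivial (PiTensorProduct k B) := by
    refine Module.nontrivial_of_finrank_pos (R := k) ?_
    rw [finrank_piT]
    exact Finset.prod_pos fun p _ => Module.finrank_pos
  refine isLocal_of_scalar (k := k) _ fun x => ?_
  have h1 : scalarNil k (PiTensorProduct k B) = ⊤ := pi_eq_top B _ fun p x => by
    obtain ⟨c, hc⟩ := exists_scalar (k := k) (B p) x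
    refine ⟨c, ?_⟩
    have h2 := hc.map (sgl (k := k) B p)
    rwa [map_sub, AlgHom.commutes] at h2
  have h2 : x ∈ scalarNil k (PiTensorProduct k B) := by rw [h1]; trivial
  exact h2

end Pool.Agent.U922.WO
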