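import Pool.Agent.N86.SQ.Clo3
import Pool.Agent.U922.WO.PiT

/-!
# Powers of a disjoint union and mixed powers of its parts
-/

set_option autoImplicit false
set_option linter.unusedSectionVars false

namespace Pool.Agent.U922.WO

open scoped TensorProduct
open Pool.Agent.H826R3.SM Pool.Agent.TH671.DU Pool.Agent.N86.SQ

variable {k : Type} [Field k]

/-- the type of a word: the numbers of occurrences of the letters -/
def ty {s N : ℕ} (f : Fin N → Fin s) (i : Fin s) : ℕ := Fintype.card {l : Fin N // f l = i}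

/-- the mixed power `A 0 ^ (t 0) ⊗ A 1 ^ (t 1) ⊗ ⋯` -/
abbrev Mix (k : Type) [Field k] {s : ℕ} (A : Fin s → Type) [∀ i, CommRing (A i)]
    [∀ i, Algebra k (A i)] (t : Fin s → ℕ) : Type :=
  PiTensorProduct k fun p : (Σ i, Fin (t i)) => A p.1

theorem exists_word_equiv {s N : ℕ} (f : Fin N → Fin s) (t : Fin s → ℕ) (h : ty f = t) :
    ∃ e : Fin N ≃ Σ i, Fin (t i), ∀ l, (e l).1 = f l := by
  subst h
  exact ⟨(Equiv.sigmaFiberEquiv f).symm.trans
    (Equiv.sigmaCongrRight fun i => Fintype.equivFin _), fun l => rfl⟩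

section words

variable {s : ℕ} (A : Fin s → Type) [∀ i, CommRing (A i)] [∀ i, Algebra k (A i)]

theorem exists_word_map {N : ℕ} (f : Fin N → Fin s) (t : Fin s → ℕ) (h : ty f = t) :
    ∃ Φ : Pow k (∀ i, A i) N →ₐ[k] Mix k A t, Function.Surjective Φ ∧
      (∀ l, Φ (sg k _ l (Pi.single (f l) 1)) = 1) ∧
      ∀ l i, i ≠ f l → Φ (sg k _ l (Pi.single i 1)) = 0 := by
  classical
  obtain ⟨e, he⟩ := exists_word_equiv f t h
  refine ⟨powLift fun l => (sgl (k := k) (fun p : (Σ i, Fin (t i)) => A p.1) (e l)).comp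
    (Pi.evalAlgHom k A (e l).1), ?_, fun l => ?_, fun l i hi => ?_⟩
  · rw [← AlgHom.range_eq_top]
    refine pi_eq_top _ _ fun p x => ?_
    obtain ⟨l, rfl⟩ := e.surjective p
    refine ⟨sg k _ l (Pi.single (e l).1 x), ?_⟩
    change powLift _ (sg k _ l _) = _
    rw [powLift_single, AlgHom.comp_apply, Pi.evalAlgHom_apply, Pi.single_eq_same]
  · rw [powLift_single, AlgHom.comp_apply, Pi.evalAlgHom_apply, ← he l, Pi.single_eq_same, map_one]
  · rw [powLift_single, AlgHom.comp_apply, Pi.evalAlgHom_apply, Pi.single_eq_of_ne, map_zero]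
    rw [he l]
    exact hi.symm

theorem joint_surj {N : ℕ} {F : Type} [Fintype F] (w : F → Fin N → Fin s)
    (hw : Function.Injective w) (B : F → Type) [∀ φ, CommRing (B φ)] [∀ φ, Algebra k (B φ)]
    (Φ : ∀ φ, Pow k (∀ i, A i) N →ₐ[k] B φ) (hΦ : ∀ φ, Function.Surjective (Φ φ))
    (h1 : ∀ φ l, Φ φ (sg k _ l (Pi.single (w φ l) 1)) = 1)
    (h0 : ∀ φ l i, i ≠ w φ l → Φ φ (sg k _ l (Pi.single i 1)) = 0) :
    Function.Surjective (AlgHom.pi Φ) := by
  classical
  intro y
  choose x hx using fun φ => hΦ φ (y φ)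
  let ε : F → Pow k (∀ i, A i) N := fun φ => ∏ l, sg k _ l (Pi.single (w φ l) 1)
  have hε : ∀ ψ φ, Φ ψ (ε φ) = if ψ = φ then 1 else 0 := by
    intro ψ φ
    change Φ ψ (∏ l, _) = _
    rw [map_prod]
    by_cases h : ψ = φ
    · subst h
      rw [if_pos rfl]
      exact Finset.prod_eq_one fun l _ => h1 ψ l
    · rw [if_neg h]
      obtain ⟨l, hl⟩ := Function.ne_iff.1 fun h' => h (hw h')
      exact Finset.prod_eq_zero (Finset.mem_univ l) (h0 ψ l _ (Ne.symm hl))
  refine ⟨∑ φ, ε φ * x φ, ?_⟩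
  funext ψ
  change Φ ψ (∑ φ, ε φ * x φ) = y ψ
  rw [map_sum, Finset.sum_eq_single ψ]
  · rw [map_mul, hε, if_pos rfl, one_mul, hx]
  · intro φ _ hφ
    rw [map_mul, hε, if_neg (Ne.symm hφ), zero_mul]
  · intro h
    exact absurd (Finset.mem_univ _) h

theorem finrank_mix [∀ i, Module.Finite k (A i)] {N : ℕ} (f : Fin N → Fin s) :
    Module.finrank k (Mix k A (ty f)) = ∏ l, Module.finrank k (A (f l)) := by
  classical
  obtain ⟨e, he⟩ := exists_word_equiv f (ty f) rfl
  rw [finrank_piT, ← Equiv.prod_comp e]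
  exact Finset.prod_congr rfl fun l _ => by rw [he]

theorem finite_mix [∀ i, Module.Finite k (A i)] (t : Fin s → ℕ) : Module.Finite k (Mix k A t) :=
  finite_piT _

theorem nontrivial_mix [∀ i, Module.Finite k (A i)] [∀ i, Nontrivial (A i)] (t : Fin s → ℕ) :
    Nontrivial (Mix k A t) := by
  refine Module.nontrivial_of_finrank_pos (R := k) ?_
  rw [finrank_piT]
  exact Finset.prod_pos fun p _ => Module.finrank_pos

theorem exists_all_words [∀ i, Module.Finite k (A i)] (N : ℕ) :
    ∃ Ψ : Pow k (∀ i, A i) N →ₐ[k] (∀ f : Fin N → Fin s, Mix k A (ty f)),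
      Function.Bijective Ψ := by
  classical
  choose Φ hΦ h1 h0 using fun f : Fin N → Fin s => exists_word_map (k := k) A f (ty f) rfl
  have hs := joint_surj (k := k) A (fun f : Fin N → Fin s => f) Function.injective_id
    (fun f => Mix k A (ty f)) Φ hΦ h1 h0
  refine ⟨AlgHom.pi Φ, ?_, hs⟩
  have hfin := fun t => finite_mix (k := k) A t
  have hfin' : Module.Finite k (Pow k (∀ i, A i) N) := finite_piT _
  have hd : Module.finrank k (Pow k (∀ i, A i) N) =
      Module.finrank k (∀ f : Fin N → Fin s, Mix k A (ty f)) := by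
    rw [finrank_piT, Finset.prod_const, Finset.card_univ, Fintype.card_fin,
      Module.finrank_pi_fintype, Module.finrank_pi_fintype]
    simp only [finrank_mix]
    exact Fintype.sum_pow (fun i => Module.finrank k (A i)) N
  have h2 := (LinearMap.injective_iff_surjective_of_finrank_eq_finrank hd
    (f := (AlgHom.pi Φ).toLinearMap)).2 hs
  exact h2

end words

section rates

variable [IsAlgClosed k]

theorem rate_pi_sum (K : ℕ) : ∀ (Y : Fin (K + 1) → Type) [∀ i, CommRing (Y i)]
    [∀ i, Algebra k (Y i)] [∀ i, Module.Finite k (Y i)] [∀ i, Nontrivial (Y i)],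
    rate k (∀ i, Y i) ≤ ∑ i, rate k (Y i) := by
  induction K with
  | zero =>
    intro Y _ _ _ _
    have h1 : Function.Injective (Pi.evalAlgHom k Y 0) := by
      intro x y hxy
      funext i
      have hi : i = 0 := Fin.ext (by omega)
      rw [hi]
      exact hxy
    have h2 := rate_le (IsSubquotient.of_injective (Pi.evalAlgHom k Y 0) h1)
    simpa using h2
  | succ K ih =>
    intro Y _ _ _ _
    have h1 := ih (fun i => Y i.succ)
    have h2 : rate k (∀ i, Y i) = rate k (Y 0 × ∀ i : Fin (K + 1), Y i.succ) :=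
      N86.SQ.rate_congr (finSplit' k (K + 1) Y)
    rw [h2, Fin.sum_univ_succ]
    refine (rate_prod_le (Y 0) (∀ i : Fin (K + 1), Y i.succ)).trans ?_
    linarith

theorem rate_pi_sum' {F : Type} [Fintype F] [Nonempty F] (Y : F → Type) [∀ i, CommRing (Y i)]
    [∀ i, Algebra k (Y i)] [∀ i, Module.Finite k (Y i)] [∀ i, Nontrivial (Y i)] :
    rate k (∀ i, Y i) ≤ ∑ i, rate k (Y i) := by
  classical
  obtain ⟨K, hK⟩ : ∃ K, Fintype.card F = K + 1 := ⟨Fintype.card F - 1, by
    have := Fintype.card_pos (α := F); omega⟩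
  let e : Fin (K + 1) ≃ F := (Fintype.equivFinOfCardEq hK).symm
  have h1 : IsSubquotient k (∀ i, Y i) (∀ j : Fin (K + 1), Y (e j)) := by
    refine IsSubquotient.of_injective
      (AlgHom.pi fun j => Pi.evalAlgHom k Y (e j)) fun x y hxy => ?_
    funext i
    obtain ⟨j, rfl⟩ := e.surjective i
    exact congrFun hxy j
  have hnF : Nontrivial (∀ i, Y i) := Pi.nontrivial_at (Classical.arbitrary F)
  refine (rate_le h1).trans ((rate_pi_sum (k := k) K fun j => Y (e j)).trans (le_of_eq ?_))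
  exact Equiv.sum_comp e fun i => rate k (Y i)

theorem card_mul_rate_le {F : Type} [Fintype F] [Nonempty F] (T : Type) [CommRing T] [Algebra k T]
    [Module.Finite k T] [Nontrivial T] : (Fintype.card F : ℝ) * rate k T ≤ rate k (F → T) := by
  classical
  have hc : 1 ≤ Fintype.card F := Fintype.card_pos
  have h1 := rate_powUnion (k := k) T (l := Fintype.card F) (fun _ => 1) hc
  simp only [pow_one, Finset.sum_const, Finset.card_univ, Fintype.card_fin, nsmul_eq_mul] at h1
  rw [← h1]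
  let e := Fintype.equivFin F
  have hn1 : Nontrivial (Pow k T 1) := nontrivial_pow (k := k) T 1
  have hn2 : Nonempty (Fin (Fintype.card F)) := ⟨⟨0, hc⟩⟩
  have hn : Nontrivial (PowUnion k T fun _ : Fin (Fintype.card F) => 1) :=
    Pi.nontrivial
  refine rate_le (IsSubquotient.of_surjective
    (AlgHom.pi (fun j : Fin (Fintype.card F) =>
      (sg k T (0 : Fin 1)).comp (Pi.evalAlgHom k (fun _ : F => T) (e.symm j)))) fun y => ?_)
  have hsg : Function.Surjective (sg k T (0 : Fin 1)) := by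
    rw [← AlgHom.range_eq_top]
    refine pow_eq_top _ fun i x => ?_
    rw [Subsingleton.elim i 0]
    exact ⟨x, rfl⟩
  choose x hx using fun j => hsg (y j)
  refine ⟨fun i => x (e i), ?_⟩
  funext j
  change sg k T (0 : Fin 1) (x (e (e.symm j))) = y j
  rw [e.apply_symm_apply, hx]

variable {s : ℕ} (A : Fin s → Type) [∀ i, CommRing (A i)] [∀ i, Algebra k (A i)]
  [∀ i, Module.Finite k (A i)] [∀ i, Nontrivial (A i)]

theorem rate_upper_words (hs : 0 < s) (N : ℕ) :
    rate k (∀ i, A i) ^ N ≤ ∑ f : Fin N → Fin s, rate k (Mix k A (ty f)) := by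
  classical
  have hne : Nonempty (Fin s) := ⟨⟨0, hs⟩⟩
  have hnt : Nontrivial (∀ i, A i) := Pi.nontrivial_at ⟨0, hs⟩
  have hfin := fun t => finite_mix (k := k) A t
  have hntm := fun t => nontrivial_mix (k := k) A t
  have hnP : Nontrivial (Pow k (∀ i, A i) N) := nontrivial_pow (k := k) (∀ i, A i) N
  obtain ⟨Ψ, hΨ⟩ := exists_all_words (k := k) A N
  have hnW : Nontrivial (∀ f : Fin N → Fin s, Mix k A (ty f)) :=
    Pi.nontrivial_at (fun _ => ⟨0, hs⟩)
  rw [← rate_pow' (∀ i, A i) N]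
  exact (rate_le (IsSubquotient.of_injective Ψ hΨ.1)).trans
    (rate_pi_sum' fun f : Fin N → Fin s => Mix k A (ty f))

theorem rate_lower_words (hs : 0 < s) {N : ℕ} (f : Fin N → Fin s) :
    (Fintype.card {g : Fin N → Fin s // ty g = ty f} : ℝ) * rate k (Mix k A (ty f)) ≤
      rate k (∀ i, A i) ^ N := by
  classical
  have hne : Nonempty (Fin s) := ⟨⟨0, hs⟩⟩
  have hnt : Nontrivial (∀ i, A i) := Pi.nontrivial_at ⟨0, hs⟩
  have hfin := finite_mix (k := k) A (ty f)
  have hntm := nontrivial_mix (k := k) A (ty f)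
  have hnP : Nontrivial (Pow k (∀ i, A i) N) := nontrivial_pow (k := k) (∀ i, A i) N
  have hneW : Nonempty {g : Fin N → Fin s // ty g = ty f} := ⟨⟨f, rfl⟩⟩
  choose Φ hΦ h1 h0 using fun g : {g : Fin N → Fin s // ty g = ty f} =>
    exists_word_map (k := k) A g.1 (ty f) g.2
  have hsj := joint_surj (k := k) A (fun g : {g : Fin N → Fin s // ty g = ty f} => g.1)
    Subtype.val_injective (fun _ => Mix k A (ty f)) Φ hΦ h1 h0
  rw [← rate_pow' (∀ i, A i) N]
  exact (card_mul_rate_le (Mix k A (ty f))).trans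
    (rate_le (IsSubquotient.of_surjective _ hsj))

end rates

end Pool.Agent.U922.WO
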